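import Pool.Agent.MalP.Last.Skew
import Pool.Agent.MalP.Low.P5
import Pool.Agent.MalP.Low.P6

/-! # The Jacobians of the good elements with five and six letters -/

set_option autoImplicit false

open scoped BigOperators

namespace Pool.Agent.MalP

universe u

variable {F : Type u} [Field F]

theorem altM_Jac {k m m' : ℕ} (hm : ¬ m < k) (hm' : ¬ m' < k) (a : FreeMalcev F ℕ) :
    altM F k (Jac a (FreeMalcev.of m) (FreeMalcev.of m')) =
      Jac (altM F k a) (FreeMalcev.of m) (FreeMalcev.of m') := by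
  let J : FreeMalcev F ℕ →ₗ[F] FreeMalcev F ℕ :=
    { toFun := fun a => Jac a (FreeMalcev.of m) (FreeMalcev.of m')
      map_add' := fun a b => by
        unfold Jac
        simp only [add_mul, mul_add]
        abel
      map_smul' := fun r a => by
        unfold Jac
        simp only [smul_mul_assoc, mul_smul_comm, smul_add, RingHom.id_apply] }
  have hJ : ∀ a, J a = Jac a (FreeMalcev.of m) (FreeMalcev.of m') := fun a => rfl
  rw [← hJ (altM F k a)]
  unfold altM
  rw [map_sum]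
  refine Finset.sum_congr rfl fun σ _ => ?_
  rw [map_zsmul, hom_Jac, rnM_of, rnM_of, extP_ge σ hm, extP_ge σ hm', hJ]

theorem altM_mk (k : ℕ) (p : FA F) : altM F k (FreeMalcev.mk p) =
    altS k (fun l => (FreeMalcev.of l : FreeMalcev F ℕ)) p := by
  unfold altM altS
  refine Finset.sum_congr rfl fun σ _ => ?_
  congr 1
  rw [rnM_mk, mk_eq_ev, ev_rnF]
  refine congrArg (fun z : ℕ → FreeMalcev F ℕ => ev z p) (funext fun l => ?_)
  unfold actE
  by_cases h : l < k
  · rw [dif_pos h, extP_lt σ h]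
  · rw [dif_neg h, extP_ge σ h]

/-- a permutation of the letters which maps `L` to the first letters -/
theorem exists_perm {L : Finset ℕ} {k : ℕ} (hL : L.card = k) :
    ∃ g : Equiv.Perm ℕ, L.map g.toEmbedding = Finset.range k := by
  obtain ⟨N, hN⟩ : ∃ N, L ⊆ Finset.range N := by
    refine ⟨L.sup id + 1, fun i hi => ?_⟩
    have h1 := Finset.le_sup (f := id) hi
    simp only [id] at h1
    rw [Finset.mem_range]
    omega
  have hkN : k ≤ N := by
    have h1 := Finset.card_le_card hN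
    rwa [Finset.card_range, hL] at h1
  obtain ⟨σ, hσ⟩ := exists_perm_map hN hL hkN
  exact ⟨extE σ, hσ⟩

theorem notMem_map {L : Finset ℕ} {g : Equiv.Perm ℕ} {n : ℕ} (hn : n ∉ L) : g n ∉ L.map g.toEmbedding := by
  rw [Finset.mem_map_equiv, Equiv.symm_apply_apply]
  exact hn

theorem rnM_injective (g : Equiv.Perm ℕ) {x : FreeMalcev F ℕ} (h : rnM F g x = 0) : x = 0 := by
  have h1 := congrArg (rnM F g.symm) h
  rw [rnM_comp, map_zero] at h1
  have e : (fun i => g.symm (g i)) = fun i => i := funext fun i => g.symm_apply_apply i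
  rwa [e, rnM_id] at h1

theorem map_extE {n : ℕ} (σ : Equiv.Perm (Fin n)) : (Finset.range n).map (extE σ).toEmbedding = Finset.range n := by
  ext i
  rw [Finset.mem_map_equiv, Finset.mem_range, Finset.mem_range]
  show extP σ⁻¹ i < n ↔ i < n
  exact extP_lt_iff _ _

namespace GoodP

variable {K : Type u} [Field K] [Algebra F K] {L : Finset ℕ} {p : FA F}

theorem altM5 [C23 F] (h : GoodP F K (Finset.range 5) p) : altM F 4 (FreeMalcev.mk p) = 0 := by
  rw [altM_mk]
  exact P5.altS_eq_zero h.mem h.c7 h.az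

theorem altM6 [C23 F] (h5 : (5 : F) ≠ 0) (h : GoodP F K (Finset.range 6) p) : altM F 4 (FreeMalcev.mk p) = 0 := by
  rw [altM_mk]
  exact Low.P6 h5 h.mem h.c7 h.az h.w FreeMalcev.isMalcev _

/-- five letters: if the Jacobian is skew in four of them then it vanishes -/
theorem jac5 [C23 F] (h : GoodP F K L p) (hL : L.card = 5) {n n' : ℕ} (hn : n ∉ L) (hn' : n' ∉ L)
    {T : Finset ℕ} (hT : T ⊆ L) (hT4 : T.card = 4)
    (hs : SkewIn T (Jac (FreeMalcev.mk p : FreeMalcev F ℕ) (FreeMalcev.of n) (FreeMalcev.of n'))) :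
    Jac (FreeMalcev.mk p : FreeMalcev F ℕ) (FreeMalcev.of n) (FreeMalcev.of n') = 0 := by
  obtain ⟨g, hg⟩ := exists_perm hL
  have h1 := h.rn g
  rw [hg] at h1
  have hT1 : T.map g.toEmbedding ⊆ Finset.range 5 := by
    rw [← hg]
    exact Finset.map_subset_map.2 hT
  obtain ⟨σ, hσ⟩ := exists_perm_map hT1 (by rw [Finset.card_map, hT4]) (by norm_num : 4 ≤ 5)
  have h2 := h1.rn (extE σ)
  rw [map_extE] at h2
  have hs2 := (hs.rn g).rn (extE σ)
  rw [hσ, rnM_comp, hom_Jac, rnM_of, rnM_of] at hs2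
  have hgn : g n ∉ Finset.range 5 := by rw [← hg]; exact notMem_map hn
  have hgn' : g n' ∉ Finset.range 5 := by rw [← hg]; exact notMem_map hn'
  rw [Finset.mem_range] at hgn hgn'
  have e1 : rnM F (fun i => extE σ (g i)) (FreeMalcev.mk p) = FreeMalcev.mk (rnF F (extE σ) (rnF F g p)) := by
    rw [← rnM_mk, ← rnM_mk, rnM_comp]
  rw [e1, extE_apply, extE_apply, extP_ge σ hgn, extP_ge σ hgn'] at hs2
  have h3 := altM_skew hs2
  rw [altM_Jac (by omega) (by omega), h2.altM5] at h3
  have h4 : Jac (0 : FreeMalcev F ℕ) (FreeMalcev.of (g n)) (FreeMalcev.of (g n')) = 0 := by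
    simp [Jac]
  rw [h4] at h3
  have h24 : ((Nat.factorial 4 : ℕ) : F) ≠ 0 := by
    have h5 := C23.ne F 3 1
    have e : Nat.factorial 4 = 2 ^ 3 * 3 ^ 1 := by decide
    rwa [e]
  have h6 := (smul_eq_zero.1 h3.symm).resolve_left h24
  apply rnM_injective g
  apply rnM_injective (extE σ)
  rw [rnM_comp, hom_Jac, e1, rnM_of, rnM_of, extE_apply, extE_apply, extP_ge σ hgn, extP_ge σ hgn']
  exact h6

/-- six letters: if the Jacobian is in the span of elements which are skew in four of the letters then it vanishes -/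
theorem jac6 [C23 F] (h5 : (5 : F) ≠ 0) (h : GoodP F K L p) (hL : L.card = 6) {n n' : ℕ} (hn : n ∉ L) (hn' : n' ∉ L)
    (hh : Jac (FreeMalcev.mk p : FreeMalcev F ℕ) (FreeMalcev.of n) (FreeMalcev.of n') ∈
      Submodule.span F {z | ∃ T ⊆ L, T.card = 4 ∧ SkewIn T z}) :
    Jac (FreeMalcev.mk p : FreeMalcev F ℕ) (FreeMalcev.of n) (FreeMalcev.of n') = 0 := by
  obtain ⟨g, hg⟩ := exists_perm hL
  have h1 := h.rn g
  rw [hg] at h1
  have hgn : g n ∉ Finset.range 6 := by rw [← hg]; exact notMem_map hn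
  have hgn' : g n' ∉ Finset.range 6 := by rw [← hg]; exact notMem_map hn'
  rw [Finset.mem_range] at hgn hgn'
  have h24 : ((Nat.factorial 4 : ℕ) : F) ≠ 0 := by
    have h5 := C23.ne F 3 1
    have e : Nat.factorial 4 = 2 ^ 3 * 3 ^ 1 := by decide
    rwa [e]
  have h720 : ((Nat.factorial 6 : ℕ) : F) ≠ 0 := by
    have h6 := C23.ne F 4 2
    have e : ((Nat.factorial 6 : ℕ) : F) = ((2 ^ 4 * 3 ^ 2 : ℕ) : F) * 5 := by
      have e1 : Nat.factorial 6 = 2 ^ 4 * 3 ^ 2 * 5 := by decide
      rw [e1]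
      push_cast
      ring
    rw [e]
    exact mul_ne_zero h6 h5
  apply rnM_injective g
  rw [hom_Jac, rnM_of, rnM_of, rnM_mk]
  refine zero_of_alt (k := 4) (n := 6) (by norm_num) h24 h720 ?_ ?_
  · intro τ
    rw [hom_Jac, rnM_of, rnM_of, extP_ge τ hgn, extP_ge τ hgn', altM_Jac (by omega) (by omega), rnM_mk]
    have h2 := h1.rn (extE τ)
    rw [map_extE] at h2
    have h3 : altM F 4 (FreeMalcev.mk (rnF F (extP τ) (rnF F g p))) = 0 := h2.altM6 h5
    rw [h3]
    simp [Jac]
  · have h2 : Submodule.span F {z : FreeMalcev F ℕ | ∃ T ⊆ L, T.card = 4 ∧ SkewIn T z} ≤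
        (Submodule.span F {z : FreeMalcev F ℕ | ∃ T ⊆ Finset.range 6, T.card = 4 ∧ SkewIn T z}).comap
          (rnM F g : FreeMalcev F ℕ →ₗ[F] FreeMalcev F ℕ) := by
      rw [Submodule.span_le]
      rintro z ⟨T, hT, hT4, hz⟩
      refine Submodule.subset_span ⟨T.map g.toEmbedding, ?_, by rw [Finset.card_map, hT4], hz.rn g⟩
      rw [← hg]
      exact Finset.map_subset_map.2 hT
    have h3 := h2 hh
    rw [Submodule.mem_comap] at h3
    have h4 : (rnM F g : FreeMalcev F ℕ →ₗ[F] FreeMalcev F ℕ)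
        (Jac (FreeMalcev.mk p : FreeMalcev F ℕ) (FreeMalcev.of n) (FreeMalcev.of n')) =
        Jac (FreeMalcev.mk (rnF F g p)) (FreeMalcev.of (g n)) (FreeMalcev.of (g n')) := by
      show rnM F g (Jac (FreeMalcev.mk p : FreeMalcev F ℕ) (FreeMalcev.of n) (FreeMalcev.of n')) = _
      rw [hom_Jac, rnM_of, rnM_of, rnM_mk]
    rw [h4] at h3
    exact h3

end GoodP

end Pool.Agent.MalP
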