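import Pool.Agent.MalP.Last.Conc
import Pool.Agent.MalP.P7.E7b
import Pool.Agent.MalP.HH4

/-! # Characteristic 7: the Jacobians of the good elements with six letters -/

set_option autoImplicit false

open scoped BigOperators

namespace Pool.Agent.MalP

universe u v

theorem SkewIn.mono {F : Type u} [Field F] {T T' : Finset ℕ} {z : FreeMalcev F ℕ} (h : SkewIn T z) (hT : T' ⊆ T) :
    SkewIn T' z := fun i hi j hj hij => h i (hT hi) j (hT hj) hij

section

variable (F : Type u) [Field F] {A : Type v} [NonUnitalNonAssocRing A] [Module F A]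
  [IsScalarTower F A A] [SMulCommClass F A A]

/-- `zz` as a function of the tuple -/
noncomputable def zzX (x : Fin 5 → A) (u v c : A) : A :=
  (eL F x (u * v) - eL F x v * u + eL F x u * v) * c

theorem zz_eq_zzX (x : Fin 5 → A) (u v c : A) : zz F (x 0) (x 1) (x 2) (x 3) (x 4) u v c = zzX F x u v c := by
  have e : ![x 0, x 1, x 2, x 3, x 4] = x := by
    funext i
    fin_cases i <;> rfl
  unfold zz zzX ee
  rw [e]

theorem zzX_swap (x : Fin 5 → A) (u v c : A) {s t : Fin 5} (hst : s ≠ t) :
    zzX F (x ∘ Equiv.swap s t) u v c = - zzX F x u v c := by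
  have e : (eL F (x ∘ Equiv.swap s t)) = - eL F x := (eL F).map_swap x hst
  have e1 : ∀ y, eL F (x ∘ Equiv.swap s t) y = - eL F x y := fun y => by rw [e]; rfl
  unfold zzX
  rw [e1, e1, e1]
  have e2 : - eL F x (u * v) - - eL F x v * u + - eL F x u * v =
      -(eL F x (u * v) - eL F x v * u + eL F x u * v) := by
    rw [neg_mul, neg_mul]
    abel
  rw [e2, neg_mul]

end

variable {F : Type u} [Field F]

/-- the letters in the first five places -/
def five (i : Fin 8 → ℕ) : Finset ℕ := (Finset.univ : Finset (Fin 5)).image fun j => i (Fin.castLE (by norm_num) j)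

theorem five_card {i : Fin 8 → ℕ} (hi : Function.Injective i) : (five i).card = 5 := by
  unfold five
  rw [Finset.card_image_of_injective, Finset.card_univ, Fintype.card_fin]
  intro a b h
  exact Fin.castLE_injective _ (hi h)

theorem zzM_skewIn [C23 F] {i : Fin 8 → ℕ} (hi : Function.Injective i) :
    SkewIn (five i) (zzM F fun j => (FreeMalcev.of (i j) : FreeMalcev F ℕ)) := by
  intro a ha b hb hab
  unfold five at ha hb
  rw [Finset.mem_image] at ha hb
  obtain ⟨s, _, rfl⟩ := ha
  obtain ⟨t, _, rfl⟩ := hb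
  have hst : s ≠ t := fun e => hab (by rw [e])
  set g : ℕ → ℕ := fun k => Equiv.swap (i (Fin.castLE (by norm_num) s)) (i (Fin.castLE (by norm_num) t)) k with hg
  have h1 : rnM F g (zzM F fun j => (FreeMalcev.of (i j) : FreeMalcev F ℕ)) =
      zzX F (fun j : Fin 5 => (FreeMalcev.of (g (i (Fin.castLE (by norm_num) j))) : FreeMalcev F ℕ))
        (FreeMalcev.of (g (i 5))) (FreeMalcev.of (g (i 6))) (FreeMalcev.of (g (i 7))) := by
    rw [zzM_apply, zz_hom, ← zz_eq_zzX]
    simp only [rnM_of]
    rfl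
  have h2 : ∀ j : Fin 5, g (i (Fin.castLE (by norm_num) j)) = i (Fin.castLE (by norm_num) (Equiv.swap s t j)) := by
    intro j
    rw [hg]
    show Equiv.swap _ _ _ = _
    rw [Equiv.swap_apply_def, Equiv.swap_apply_def]
    have e1 : (i (Fin.castLE (by norm_num) j) = i (Fin.castLE (by norm_num) s)) ↔ j = s :=
      ⟨fun h => Fin.castLE_injective _ (hi h), fun h => by rw [h]⟩
    have e2 : (i (Fin.castLE (by norm_num) j) = i (Fin.castLE (by norm_num) t)) ↔ j = t :=
      ⟨fun h => Fin.castLE_injective _ (hi h), fun h => by rw [h]⟩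
    simp only [e1, e2]
    split_ifs <;> rfl
  have h3 : ∀ j : Fin 8, 5 ≤ (j : ℕ) → g (i j) = i j := by
    intro j hj
    apply Equiv.swap_apply_of_ne_of_ne
    · intro h
      have h4 := congrArg Fin.val (hi h)
      rw [Fin.val_castLE] at h4
      have := s.2
      omega
    · intro h
      have h4 := congrArg Fin.val (hi h)
      rw [Fin.val_castLE] at h4
      have := t.2
      omega
  have h5 : rnM F g (zzM F fun j => (FreeMalcev.of (i j) : FreeMalcev F ℕ)) =
      - zzM F fun j => (FreeMalcev.of (i j) : FreeMalcev F ℕ) := by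
    rw [h1, h3 5 (by decide), h3 6 (by decide), h3 7 (by decide)]
    simp only [h2]
    have h6 := zzX_swap F (fun j : Fin 5 => (FreeMalcev.of (i (Fin.castLE (by norm_num) j)) : FreeMalcev F ℕ))
      (FreeMalcev.of (i 5)) (FreeMalcev.of (i 6)) (FreeMalcev.of (i 7)) hst
    have h7 : zzX F (fun j : Fin 5 => (FreeMalcev.of (i (Fin.castLE (by norm_num) j)) : FreeMalcev F ℕ))
      (FreeMalcev.of (i 5)) (FreeMalcev.of (i 6)) (FreeMalcev.of (i 7)) =
      zzM F fun j => (FreeMalcev.of (i j) : FreeMalcev F ℕ) := by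
      rw [zzM_apply, ← zz_eq_zzX]
      rfl
    rw [← h7, ← h6]
    rfl
  exact h5

theorem five_sub {L : Finset ℕ} {n n' : ℕ} {i : Fin 8 → ℕ} (hiL : ∀ j, i j ∈ insert n' (insert n L))
    (hin : ∀ j : Fin 8, (j : ℕ) < 5 → i j ≠ n) : (five i).erase n' ⊆ L := by
  intro a ha
  rw [Finset.mem_erase] at ha
  obtain ⟨han', ha⟩ := ha
  unfold five at ha
  rw [Finset.mem_image] at ha
  obtain ⟨j, _, rfl⟩ := ha
  have h2 := hiL (Fin.castLE (show 5 ≤ 8 by norm_num) j)
  rw [Finset.mem_insert, Finset.mem_insert] at h2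
  have h3 := hin (Fin.castLE (show 5 ≤ 8 by norm_num) j) (by rw [Fin.val_castLE]; exact j.2)
  exact (h2.resolve_left han').resolve_left h3

/-- characteristic 7, six letters -/
theorem GoodP.jac7 [C23 F] (h7 : (7 : F) = 0) {K : Type u} [Field K] [Algebra F K] {L : Finset ℕ} {p : FA F}
    (h : GoodP F K L p) (hL : L.card = 6) {n n' : ℕ} (hnn : n ≠ n') (hn : n ∉ L) (hn' : n' ∉ L)
    (hh : Jac (FreeMalcev.mk p : FreeMalcev F ℕ) (FreeMalcev.of n) (FreeMalcev.of n') ∈ E7sub F) :
    Jac (FreeMalcev.mk p : FreeMalcev F ℕ) (FreeMalcev.of n) (FreeMalcev.of n') = 0 := by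
  have h5 : (5 : F) ≠ 0 := by
    intro h5
    have h2 : (2 : F) = 7 - 5 := by norm_num
    rw [h7, h5, sub_zero] at h2
    exact C23.two h2
  refine h.jac6 h5 hL hn hn' ?_
  have h1 := E7_span F h7 (y := n) hh (h.GM hnn hn hn')
  refine Submodule.span_mono ?_ h1
  rintro z ⟨i, hi, hiL, hin, hz⟩
  have hsub : (five i).erase n' ⊆ L := five_sub hiL hin
  have hcard : 4 ≤ ((five i).erase n').card := by
    have h3 := Finset.pred_card_le_card_erase (s := five i) (a := n')
    rw [five_card hi] at h3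
    omega
  obtain ⟨T, hT, hT4⟩ := Finset.exists_subset_card_eq hcard
  have h8 : SkewIn T z := by
    rw [hz]
    exact (zzM_skewIn hi).mono (hT.trans (Finset.erase_subset _ _))
  exact ⟨T, hT.trans hsub, hT4, h8⟩

end Pool.Agent.MalP
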