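import Mathlib

/-! # Averaging over a finite group -/

set_option autoImplicit false

open scoped BigOperators

namespace Pool.Agent.MalP

universe u v

namespace Avg

variable {F : Type u} [Field F] {V : Type v} [AddCommGroup V] [Module F V]

/-- A Maschke argument: `ρ` a representation of a finite group `G` with `|G| ≠ 0` in `F`, `A` a linear map which commutes
with the maps which commute with the group (an element of the group algebra), `h` with `A (ρ g h) = 0` for all `g`, and
`h` in the span of elements `z` with `A (ρ g z) = c ρ g z` for a `g` and a `c ≠ 0`: then `h = 0`. -/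
theorem zero_of_avg {G : Type*} [Group G] [Fintype G] (hG : (Fintype.card G : F) ≠ 0)
    (ρ : G →* Module.End F V) (A : V →ₗ[F] V)
    (hAc : ∀ π : V →ₗ[F] V, (∀ s x, π (ρ s x) = ρ s (π x)) → ∀ x, π (A x) = A (π x)) {h : V}
    (hA : ∀ g, A (ρ g h) = 0) (S : Set V)
    (hS : ∀ z ∈ S, ∃ g, ∃ c : F, c ≠ 0 ∧ A (ρ g z) = c • ρ g z) (hh : h ∈ Submodule.span F S) :
    h = 0 := by
  classical
  -- the subspace of the elements killed by all `A ρ g`
  let U : Submodule F V := ⨅ g : G, LinearMap.ker (A ∘ₗ (ρ g : V →ₗ[F] V))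
  have hUmem : ∀ x, x ∈ U ↔ ∀ g, A (ρ g x) = 0 := fun x => by
    simp only [U, Submodule.mem_iInf, LinearMap.mem_ker, LinearMap.comp_apply]
  have hUinv : ∀ x ∈ U, ∀ g, ρ g x ∈ U := by
    intro x hx g
    rw [hUmem] at hx ⊢
    intro g'
    have h1 := hx (g' * g)
    rw [map_mul] at h1
    exact h1
  -- a projection on `U`
  obtain ⟨P, hP⟩ := U.subtype.exists_leftInverse_of_injective (by
    rw [Submodule.ker_subtype])
  have hPU : ∀ u ∈ U, ((P u : U) : V) = u := by
    intro u hu
    have h1 := LinearMap.congr_fun hP ⟨u, hu⟩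
    have h2 := congrArg (fun z : U => (z : V)) h1
    exact h2
  -- its average
  let π : V →ₗ[F] V := ∑ g : G, (ρ g : V →ₗ[F] V) ∘ₗ U.subtype ∘ₗ P ∘ₗ (ρ g⁻¹ : V →ₗ[F] V)
  have hπ : ∀ x, π x = ∑ g : G, ρ g ((P (ρ g⁻¹ x) : U) : V) := by
    intro x
    simp only [π, LinearMap.sum_apply, LinearMap.comp_apply, Submodule.subtype_apply]
  have hπU : ∀ x, π x ∈ U := by
    intro x
    rw [hπ]
    exact Submodule.sum_mem _ fun g _ => hUinv _ (P (ρ g⁻¹ x)).2 g
  have hπid : ∀ u ∈ U, π u = (Fintype.card G : F) • u := by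
    intro u hu
    have h1 : ∀ g : G, ρ g ((P (ρ g⁻¹ u) : U) : V) = u := by
      intro g
      rw [hPU _ (hUinv u hu _), ← Module.End.mul_apply, ← map_mul, mul_inv_cancel, map_one]
      rfl
    rw [hπ, Finset.sum_congr rfl fun g _ => h1 g, Finset.sum_const, Finset.card_univ,
      Nat.cast_smul_eq_nsmul]
  have hπρ : ∀ s x, π (ρ s x) = ρ s (π x) := by
    intro s x
    rw [hπ, hπ, map_sum]
    refine (Fintype.sum_equiv (Equiv.mulLeft s) _ _ ?_).symm
    intro g
    show ρ s (ρ g ((P (ρ g⁻¹ x) : U) : V)) = ρ (s * g) ((P (ρ (s * g)⁻¹ (ρ s x)) : U) : V)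
    have e1 : ρ (s * g)⁻¹ (ρ s x) = ρ g⁻¹ x := by
      rw [← Module.End.mul_apply, ← map_mul, mul_inv_rev, mul_assoc, inv_mul_cancel, mul_one]
    rw [e1, map_mul]
    rfl
  -- the average kills the elements of `S`
  have hz : ∀ z ∈ S, π z = 0 := by
    intro z hzS
    obtain ⟨g, c, hc, hz⟩ := hS z hzS
    have h1 : π (c • ρ g z) = 0 := by
      rw [← hz, hAc π hπρ, hπρ]
      exact (hUmem _).1 (hπU z) g
    rw [map_smul] at h1
    have h2 : ρ g (π z) = 0 := by
      rw [← hπρ]
      exact (smul_eq_zero.1 h1).resolve_left hc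
    have h3 : ρ g⁻¹ (ρ g (π z)) = π z := by
      rw [← Module.End.mul_apply, ← map_mul, inv_mul_cancel, map_one]
      rfl
    rw [← h3, h2, map_zero]
  have hπh : π h = 0 := by
    have h1 : Submodule.span F S ≤ LinearMap.ker π := by
      rw [Submodule.span_le]
      exact fun z hz' => hz z hz'
    exact h1 hh
  have h3 := hπid h ((hUmem h).2 hA)
  rw [hπh] at h3
  exact (smul_eq_zero.1 h3.symm).resolve_left hG

end Avg

end Pool.Agent.MalP
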