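import Pool.Agent.MalP.HH
import Pool.Agent.MalP.Last.Avg

/-! # Renaming of letters

`rnF`, `rnM`: renaming of the letters in the free nonassociative and the free Malcev algebra. The elements with `GoodP`
form a subspace, closed under permutations of the letters. -/

set_option autoImplicit false

open scoped BigOperators

namespace Pool.Agent.MalP

universe u v

/-- renaming of the letters of the free nonassociative algebra -/
noncomputable def rnF (F : Type u) [Field F] (σ : ℕ → ℕ) : FA F →ₙₐ[F] FA F :=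
  ev (fun i => wd (FreeMagma.of (σ i)))

/-- renaming of the letters of the free Malcev algebra -/
noncomputable def rnM (F : Type u) [Field F] (σ : ℕ → ℕ) : FreeMalcev F ℕ →ₙₐ[F] FreeMalcev F ℕ :=
  FreeMalcev.lift FreeMalcev.isMalcev (fun i => FreeMalcev.of (σ i))

section

variable {F : Type u} [Field F]

theorem ev_rnF {B : Type v} [NonUnitalNonAssocRing B] [Module F B] [IsScalarTower F B B]
    [SMulCommClass F B B] (x : ℕ → B) (σ : ℕ → ℕ) (p : FA F) : ev x (rnF F σ p) = ev (fun i => x (σ i)) p := by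
  unfold rnF
  rw [ev_ev]
  refine congrArg (fun z : ℕ → B => ev z p) (funext fun i => ?_)
  rw [← of_eq_wd, ev_of]

theorem rnM_of (σ : ℕ → ℕ) (i : ℕ) : rnM F σ (FreeMalcev.of i) = FreeMalcev.of (σ i) := by
  unfold rnM
  rw [FreeMalcev.lift_of]

theorem rnM_mk (σ : ℕ → ℕ) (p : FA F) : rnM F σ (FreeMalcev.mk p) = FreeMalcev.mk (rnF F σ p) := by
  have h : ((rnM F σ).comp FreeMalcev.mkHom : FA F →ₙₐ[F] FreeMalcev F ℕ) =
      (FreeMalcev.mkHom).comp (rnF F σ) := by
    apply FreeNonUnitalNonAssocAlgebra.hom_ext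
    intro i
    show rnM F σ (FreeMalcev.of i) = FreeMalcev.mk (rnF F σ (FreeNonUnitalNonAssocAlgebra.of F i))
    rw [rnM_of]
    unfold rnF
    rw [ev_of, ← of_eq_wd]
    rfl
  exact DFunLike.congr_fun h p

theorem rnM_comp (σ τ : ℕ → ℕ) (x : FreeMalcev F ℕ) : rnM F σ (rnM F τ x) = rnM F (fun i => σ (τ i)) x := by
  obtain ⟨p, rfl⟩ := FreeMalcev.mk_surj x
  rw [rnM_mk, rnM_mk, rnM_mk]
  congr 1
  show (ev _) (rnF F τ p) = _
  rw [ev_rnF]
  rfl

theorem rnM_id (x : FreeMalcev F ℕ) : rnM F (fun i => i) x = x := by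
  obtain ⟨p, rfl⟩ := FreeMalcev.mk_surj x
  rw [rnM_mk]
  congr 1
  have h : rnF F (fun i => i) = NonUnitalAlgHom.id F (FA F) := by
    apply FreeNonUnitalNonAssocAlgebra.hom_ext
    intro i
    show rnF F (fun i => i) (FreeNonUnitalNonAssocAlgebra.of F i) = FreeNonUnitalNonAssocAlgebra.of F i
    unfold rnF
    rw [ev_of, ← of_eq_wd]
  rw [h]
  rfl

theorem rnF_mem {L : Finset ℕ} {p : FA F} (hp : p ∈ Hg F L.val) (g : Equiv.Perm ℕ) :
    rnF F g p ∈ Hg F (L.map g.toEmbedding).val := by
  have h := ev_word_mem hp (fun i => FreeMagma.of (g i))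
  have e : (L.map g.toEmbedding).val = L.val.bind fun i => content (FreeMagma.of (g i)) := by
    rw [Finset.map_val]
    exact (Multiset.bind_singleton _ _).symm
  rw [e]
  exact h

theorem mem_AZ_mk {p : FA F} : FreeMalcev.mk p ∈ AZ F ↔ ∀ (R : Type u) [Ring R] [Algebra F R] (x : ℕ → Cm R),
    ev x p = 0 := Iff.rfl

end

namespace GoodP

variable {F K : Type u} [Field F] [Field K] [Algebra F K] {L : Finset ℕ}

theorem zero : GoodP F K L 0 where
  mem := Submodule.zero_mem _
  c7 := fun x => map_zero _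
  az := by rw [map_zero]; exact Submodule.zero_mem _
  w := fun σ _ i => by rw [map_zero]; rfl

theorem add {p q : FA F} (hp : GoodP F K L p) (hq : GoodP F K L q) : GoodP F K L (p + q) where
  mem := Submodule.add_mem _ hp.mem hq.mem
  c7 := fun x => by rw [map_add, hp.c7, hq.c7, add_zero]
  az := by rw [map_add]; exact Submodule.add_mem _ hp.az hq.az
  w := fun σ hσ i => by
    rw [map_add]
    show (ev (fun k => Bh.lt F (σ k)) p).w i + (ev (fun k => Bh.lt F (σ k)) q).w i = 0
    rw [hp.w σ hσ, hq.w σ hσ, add_zero]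

theorem smul {p : FA F} (r : F) (hp : GoodP F K L p) : GoodP F K L (r • p) where
  mem := Submodule.smul_mem _ _ hp.mem
  c7 := fun x => by rw [map_smul, hp.c7, smul_zero]
  az := by rw [map_smul]; exact Submodule.smul_mem _ _ hp.az
  w := fun σ hσ i => by rw [map_smul, Bh.w_smul, hp.w σ hσ, smul_zero]

theorem sum {ι : Type*} (s : Finset ι) (f : ι → FA F) (h : ∀ i ∈ s, GoodP F K L (f i)) :
    GoodP F K L (∑ i ∈ s, f i) := by
  classical
  induction s using Finset.induction_on with
  | empty => rw [Finset.sum_empty]; exact zero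
  | insert a s ha ih =>
    rw [Finset.sum_insert ha]
    exact (h a (Finset.mem_insert_self a s)).add (ih fun i hi => h i (Finset.mem_insert_of_mem hi))

/-- renaming -/
theorem rn {p : FA F} (hp : GoodP F K L p) (g : Equiv.Perm ℕ) :
    GoodP F K (L.map g.toEmbedding) (rnF F g p) where
  mem := rnF_mem hp.mem g
  c7 := fun x => by rw [ev_rnF]; exact hp.c7 _
  az := by
    rw [mem_AZ_mk]
    intro R _ _ x
    rw [ev_rnF]
    exact mem_AZ_mk.1 hp.az R _
  w := fun σ hσ i => by
    rw [ev_rnF]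
    exact hp.w (fun k => σ (g k)) (hσ.comp g.injective) i

end GoodP

end Pool.Agent.MalP
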