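import Pool.Agent.MalP.Last.Good

/-! # Averaging over the permutations of six letters -/

set_option autoImplicit false

open scoped BigOperators

namespace Pool.Agent.MalP

universe u

/-- a permutation of the first `n` letters -/
def extP {n : ℕ} (σ : Equiv.Perm (Fin n)) (i : ℕ) : ℕ := if h : i < n then (σ ⟨i, h⟩ : ℕ) else i

theorem extP_lt {n : ℕ} (σ : Equiv.Perm (Fin n)) {i : ℕ} (h : i < n) : extP σ i = (σ ⟨i, h⟩ : ℕ) := dif_pos h

theorem extP_ge {n : ℕ} (σ : Equiv.Perm (Fin n)) {i : ℕ} (h : ¬ i < n) : extP σ i = i := dif_neg h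

theorem extP_lt_iff {n : ℕ} (σ : Equiv.Perm (Fin n)) (i : ℕ) : extP σ i < n ↔ i < n := by
  by_cases h : i < n
  · rw [extP_lt σ h]
    exact ⟨fun _ => h, fun _ => (σ ⟨i, h⟩).2⟩
  · rw [extP_ge σ h]

theorem extP_one {n : ℕ} (i : ℕ) : extP (1 : Equiv.Perm (Fin n)) i = i := by
  by_cases h : i < n
  · rw [extP_lt _ h]; rfl
  · rw [extP_ge _ h]

theorem extP_mul {n : ℕ} (σ τ : Equiv.Perm (Fin n)) (i : ℕ) : extP (σ * τ) i = extP σ (extP τ i) := by
  by_cases h : i < n
  · rw [extP_lt _ h, extP_lt τ h, extP_lt σ (τ ⟨i, h⟩).2]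
    rfl
  · rw [extP_ge _ h, extP_ge τ h, extP_ge σ h]

theorem extP_swap {n : ℕ} (x y : Fin n) (i : ℕ) : extP (Equiv.swap x y) i = Equiv.swap (x : ℕ) (y : ℕ) i := by
  by_cases h : i < n
  · rw [extP_lt _ h, Equiv.swap_apply_def, Equiv.swap_apply_def]
    by_cases h1 : i = x
    · have h2 : (⟨i, h⟩ : Fin n) = x := Fin.ext h1
      rw [if_pos h2, if_pos h1]
    · have h2 : (⟨i, h⟩ : Fin n) ≠ x := fun e => h1 (congrArg Fin.val e)
      rw [if_neg h2, if_neg h1]
      by_cases h3 : i = y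
      · have h4 : (⟨i, h⟩ : Fin n) = y := Fin.ext h3
        rw [if_pos h4, if_pos h3]
      · have h4 : (⟨i, h⟩ : Fin n) ≠ y := fun e => h3 (congrArg Fin.val e)
        rw [if_neg h4, if_neg h3]
  · rw [extP_ge _ h]
    have hx : i ≠ x := by have := x.2; omega
    have hy : i ≠ y := by have := y.2; omega
    exact (Equiv.swap_apply_of_ne_of_ne hx hy).symm

/-- the permutation of all letters -/
def extE {n : ℕ} (σ : Equiv.Perm (Fin n)) : Equiv.Perm ℕ where
  toFun := extP σ
  invFun := extP σ⁻¹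
  left_inv := fun i => by rw [← extP_mul, inv_mul_cancel, extP_one]
  right_inv := fun i => by rw [← extP_mul, mul_inv_cancel, extP_one]

theorem extE_apply {n : ℕ} (σ : Equiv.Perm (Fin n)) (i : ℕ) : extE σ i = extP σ i := rfl

/-- a permutation of four letters is one of six letters -/
theorem exists_up {k n : ℕ} (hkn : k ≤ n) (σ : Equiv.Perm (Fin k)) : ∃ τ : Equiv.Perm (Fin n), ∀ i, extP τ i = extP σ i := by
  induction σ using Equiv.Perm.swap_induction_on with
  | one => exact ⟨1, fun i => by rw [extP_one, extP_one]⟩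
  | swap_mul f x y _ ih =>
    obtain ⟨τ, hτ⟩ := ih
    refine ⟨Equiv.swap (Fin.castLE hkn x) (Fin.castLE hkn y) * τ, fun i => ?_⟩
    rw [extP_mul, extP_mul, hτ, extP_swap, extP_swap]
    rfl

section

variable {F : Type u} [Field F]

/-- the action of the permutations of the first `n` letters on the free Malcev algebra -/
noncomputable def rhoP (F : Type u) [Field F] (n : ℕ) : Equiv.Perm (Fin n) →* Module.End F (FreeMalcev F ℕ) where
  toFun := fun σ => (rnM F (extP σ) : FreeMalcev F ℕ →ₗ[F] FreeMalcev F ℕ)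
  map_one' := by
    apply LinearMap.ext
    intro x
    show rnM F (extP 1) x = x
    have e : extP (1 : Equiv.Perm (Fin n)) = fun i => i := funext fun i => extP_one i
    rw [e, rnM_id]
  map_mul' := fun σ τ => by
    apply LinearMap.ext
    intro x
    show rnM F (extP (σ * τ)) x = rnM F (extP σ) (rnM F (extP τ) x)
    rw [rnM_comp]
    have e : extP (σ * τ) = fun i => extP σ (extP τ i) := funext fun i => extP_mul σ τ i
    rw [e]

theorem rhoP_apply (n : ℕ) (σ : Equiv.Perm (Fin n)) (x : FreeMalcev F ℕ) : rhoP F n σ x = rnM F (extP σ) x := rfl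

/-- `z` is skew in the letters `T` -/
def SkewIn (T : Finset ℕ) (z : FreeMalcev F ℕ) : Prop :=
  ∀ i ∈ T, ∀ j ∈ T, i ≠ j → rnM F (Equiv.swap i j) z = - z

theorem SkewIn.rn {T : Finset ℕ} {z : FreeMalcev F ℕ} (h : SkewIn T z) (g : Equiv.Perm ℕ) :
    SkewIn (T.map g.toEmbedding) (rnM F g z) := by
  intro i hi j hj hij
  rw [Finset.mem_map_equiv] at hi hj
  have h1 := h _ hi _ hj (fun e => hij (g.symm.injective e))
  have h2 : rnM F (Equiv.swap i j) (rnM F g z) = rnM F g (rnM F (Equiv.swap (g.symm i) (g.symm j)) z) := by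
    rw [rnM_comp, rnM_comp]
    congr 2
    funext k
    have h3 := Equiv.Perm.ext_iff.1 (Equiv.mul_swap_eq_swap_mul g (g.symm i) (g.symm j)) k
    rw [Equiv.apply_symm_apply, Equiv.apply_symm_apply] at h3
    exact h3.symm
  rw [h2, h1, map_neg]

theorem SkewIn.perm {n : ℕ} {z : FreeMalcev F ℕ} (h : SkewIn (Finset.range n) z) (σ : Equiv.Perm (Fin n)) :
    rnM F (extP σ) z = ((Equiv.Perm.sign σ : ℤˣ) : ℤ) • z := by
  induction σ using Equiv.Perm.swap_induction_on with
  | one =>
    have e : extP (1 : Equiv.Perm (Fin n)) = fun i => i := funext fun i => extP_one i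
    rw [e, rnM_id, Equiv.Perm.sign_one]
    simp
  | swap_mul f x y hxy ih =>
    have e : extP (Equiv.swap x y * f) = fun i => Equiv.swap (x : ℕ) (y : ℕ) (extP f i) := by
      funext i
      rw [extP_mul, extP_swap]
    rw [e, ← rnM_comp, ih, Equiv.Perm.sign_mul, Equiv.Perm.sign_swap hxy, map_zsmul,
      h x (Finset.mem_range.2 x.2) y (Finset.mem_range.2 y.2) (fun e => hxy (Fin.ext e))]
    rw [neg_one_mul, Units.val_neg, neg_smul, smul_neg]

/-- the alternating sum over the permutations of the first `n` letters -/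
noncomputable def altM (F : Type u) [Field F] (n : ℕ) (x : FreeMalcev F ℕ) : FreeMalcev F ℕ :=
  ∑ σ : Equiv.Perm (Fin n), ((Equiv.Perm.sign σ : ℤˣ) : ℤ) • rnM F (extP σ) x

theorem altM_skew {n : ℕ} {z : FreeMalcev F ℕ} (h : SkewIn (Finset.range n) z) :
    altM F n z = ((n.factorial : ℕ) : F) • z := by
  have h1 : ∀ σ : Equiv.Perm (Fin n), ((Equiv.Perm.sign σ : ℤˣ) : ℤ) • rnM F (extP σ) z = z := by
    intro σ
    rw [h.perm σ, smul_smul, ← Units.val_mul, Int.units_mul_self, Units.val_one, one_smul]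
  show (∑ σ : Equiv.Perm (Fin n), ((Equiv.Perm.sign σ : ℤˣ) : ℤ) • rnM F (extP σ) z) = _
  rw [Finset.sum_congr rfl fun σ _ => h1 σ, Finset.sum_const, Finset.card_univ, Fintype.card_perm,
    Fintype.card_fin, Nat.cast_smul_eq_nsmul]

/-- `altM` is linear -/
noncomputable def altL (F : Type u) [Field F] (n : ℕ) : FreeMalcev F ℕ →ₗ[F] FreeMalcev F ℕ :=
  ∑ σ : Equiv.Perm (Fin n), ((Equiv.Perm.sign σ : ℤˣ) : ℤ) • (rnM F (extP σ) : FreeMalcev F ℕ →ₗ[F] FreeMalcev F ℕ)

theorem altL_apply (n : ℕ) (x : FreeMalcev F ℕ) : altL F n x = altM F n x := by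
  unfold altL altM
  rw [LinearMap.sum_apply]
  rfl

omit [Field F] in
theorem card_subtype_val {n : ℕ} {S : Finset ℕ} (hS : S ⊆ Finset.range n) :
    Fintype.card {i : Fin n // (i : ℕ) ∈ S} = S.card := by
  rw [Fintype.card_subtype, ← Finset.card_map Fin.valEmbedding]
  congr 1
  ext i
  simp only [Finset.mem_map, Finset.mem_filter, Finset.mem_univ, true_and, Fin.valEmbedding_apply]
  constructor
  · rintro ⟨a, ha, rfl⟩
    exact ha
  · intro hi
    exact ⟨⟨i, Finset.mem_range.1 (hS hi)⟩, hi, rfl⟩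

omit [Field F] in
/-- a finite set of letters below `n` with `k` elements is the image of the first `k` letters -/
theorem exists_perm_map {k n : ℕ} {T : Finset ℕ} (hT : T ⊆ Finset.range n) (hk : T.card = k) (hkn : k ≤ n) :
    ∃ σ : Equiv.Perm (Fin n), T.map (extE σ).toEmbedding = Finset.range k := by
  have e : {i : Fin n // (i : ℕ) ∈ T} ≃ {i : Fin n // (i : ℕ) ∈ Finset.range k} :=
    Fintype.equivOfCardEq (by
      rw [card_subtype_val hT, card_subtype_val (Finset.range_subset_range.2 hkn), hk, Finset.card_range])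
  refine ⟨e.extendSubtype, Finset.eq_of_subset_of_card_le ?_ ?_⟩
  · intro j hj
    rw [Finset.mem_map] at hj
    obtain ⟨i, hi, rfl⟩ := hj
    have hin : i < n := Finset.mem_range.1 (hT hi)
    show extP _ i ∈ Finset.range k
    rw [extP_lt _ hin]
    exact e.extendSubtype_mem ⟨i, hin⟩ hi
  · rw [Finset.card_range, Finset.card_map, hk]

/-- an element `h` whose alternating sums over all `k`-subsets of `n` letters vanish, in the span of elements which are
skew in a `k`-subset, is `0` -/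
theorem zero_of_alt {k n : ℕ} (hkn : k ≤ n) (hk : ((k.factorial : ℕ) : F) ≠ 0) (hn : ((n.factorial : ℕ) : F) ≠ 0)
    {h : FreeMalcev F ℕ} (hA : ∀ τ : Equiv.Perm (Fin n), altM F k (rnM F (extP τ) h) = 0)
    (hh : h ∈ Submodule.span F {z | ∃ T ⊆ Finset.range n, T.card = k ∧ SkewIn T z}) : h = 0 := by
  choose j hj using exists_up hkn
  refine Avg.zero_of_avg (G := Equiv.Perm (Fin n)) (by rwa [Fintype.card_perm, Fintype.card_fin]) (rhoP F n)
    (altL F k) ?_ (fun τ => by rw [altL_apply]; exact hA τ) _ ?_ hh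
  · intro π hπ x
    rw [altL_apply, altL_apply]
    unfold altM
    rw [map_sum]
    refine Finset.sum_congr rfl fun σ _ => ?_
    rw [map_zsmul]
    congr 1
    have e : (extP σ : ℕ → ℕ) = extP (j σ) := funext fun i => (hj σ i).symm
    rw [e]
    exact hπ (j σ) x
  · rintro z ⟨T, hT, hTk, hz⟩
    obtain ⟨σ, hσ⟩ := exists_perm_map hT hTk hkn
    refine ⟨σ, _, hk, ?_⟩
    rw [altL_apply]
    have h1 := hz.rn (extE σ)
    rw [hσ] at h1
    exact altM_skew h1

end

end Pool.Agent.MalP
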